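import Pool.Agent.H87.ZF.Z1T
import Pool.Agent.H12.ZR.T

/-!
Board zr (MP_52e316_nt): from a local theorem for one form which satisfies Ramanujan's bounds at the small
primes to few exceptional pairs of a form and an integer.
-/

set_option autoImplicit false

namespace Pool.Agent.H87.ZR

open MeasureTheory Pool.Agent.H27.L1.H34.GM Pool.Agent.H27.L1.H34.GZ Pool.Agent.H27.L1.H34.GU
  Pool.Agent.H27.L1.H34.GA
open Pool.Agent.H27.ZF (Fam Dp Sq Bk T_LSF T_BS)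
open Pool.Agent.H31.CT (Q3 Tw)
open Pool.Agent.H47.TZF Pool.Agent.H87.ZF Pool.Agent.H87.TZF
open Pool.Agent.H12.ZR (Rb T_BRB gy)

/-- the local theorem for one form at any level with Ramanujan's bounds up to `e1` at the small primes: small sums of squares, small Dirichlet polynomials and a small
L-function near the height `t` make the values `L s` good -/
def LocR (m : ℕ) (d0 e1 : ℝ) (Good : ℝ → ℂ → ℂ → Prop) : Prop :=
  ∃ (d c B Q0 : ℝ) (z0 z : ℝ → ℝ), 0 < d ∧ d ≤ 1 / 2 ∧ 0 < c ∧ 1 ≤ B ∧ 1 ≤ Q0 ∧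
    ∀ (N : ℕ) [NeZero N] (T : ℕ → Finset (ZM m)) (D : Set (V m)), SysZ m N T D →
    ∀ (F : Mat m → VN m N → ℂ) (lam : ℕ → ℂ), CusB m N T F lam → NZ F →
    ∀ L : ℂ → ℂ, IsL m 1 lam L → ∀ Q t : ℝ, Q0 ≤ Q → Sq lam Q (Q ^ (2 * c)) →
    Rb m lam (Real.log Q ^ 2) e1 →
    (∀ s : ℂ, 1 / 2 ≤ s.re → s.re ≤ B → |s.im - t| ≤ B → Dp m lam Q (z0 Q) (z Q) (Q ^ c) s) →
    (∀ s : ℂ, 1 / 2 + d / 2 ≤ s.re → s.re ≤ B → |s.im - t| ≤ B → ‖L s‖ ≤ Q ^ c) →
    ∀ s : ℂ, 1 / 2 + d0 ≤ s.re → |s.im - t| ≤ 1 → Good Q s (L s)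

/-- Ramanujan's bounds for the twist and a smaller range -/
theorem rb_tw {m : ℕ} {lam lamG c : ℕ → ℂ} (hc : ∀ n, ‖c n‖ ≤ 1)
    (ht : ∀ n, 1 ≤ n → lamG n = c n * lam n) {z z' e : ℝ} (hz : z' ≤ z) (h : Rb m lam z e) :
    Rb m lamG z' e := by
  intro p hp hpz k
  rw [ht (p ^ k) (Nat.one_le_pow _ _ hp.pos), norm_mul]
  exact (mul_le_of_le_one_left (norm_nonneg _) (hc _)).trans (h p hp (hpz.trans hz) k)

theorem log_sq {b : ℝ} (hb : 0 < b) : ∃ Q1 : ℝ, 1 ≤ Q1 ∧ ∀ Q : ℝ, Q1 ≤ Q → Real.log Q ^ 2 ≤ Q ^ b := by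
  have h := (isLittleO_log_rpow_atTop (half_pos hb)).bound one_pos
  rw [Filter.eventually_atTop] at h
  obtain ⟨Q1, hQ1⟩ := h
  refine ⟨max Q1 1, le_max_right _ _, ?_⟩
  intro Q hQ
  have h1 := hQ1 Q ((le_max_left _ _).trans hQ)
  have hQ0 : 0 < Q := by linarith [(le_max_right Q1 1).trans hQ]
  have h2 : 0 ≤ Q ^ (b / 2) := by positivity
  rw [one_mul, Real.norm_eq_abs, Real.norm_eq_abs, abs_of_nonneg h2] at h1
  calc Real.log Q ^ 2 = |Real.log Q| ^ 2 := (sq_abs _).symm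
    _ ≤ (Q ^ (b / 2)) ^ 2 := pow_le_pow_left₀ (abs_nonneg _) h1 2
    _ = Q ^ b := by
        rw [← Real.rpow_natCast, ← Real.rpow_mul hQ0.le]
        congr 1
        push_cast
        ring

open Classical in
/-- few pairs of a form and an integer which are not good -/
theorem comp_RT (hEUL : Pool.Agent.H27.ZF.T_EUL) (hLSF : T_LSF) (hBS : T_BS) (hBDT : T_BDT)
    (hBLT : T_BLT) (hBRB : T_BRB) (m : ℕ) (d0 e1 : ℝ) (hm : 1 ≤ m) (he1 : 0 < e1)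
    (Good : ℝ → ℂ → ℂ → Prop) (hLoc : LocR m d0 e1 Good) : ∃ a : ℝ, 0 < a ∧
  ∀ ε : ℝ, 0 < ε → ∃ C : ℝ, 0 < C ∧
  ∀ (N : ℕ) [NeZero N] (T : ℕ → Finset (ZM m)) (D : Set (V m)), SysZ m N T D →
  ∀ B0 H U : ℝ, 1 ≤ B0 → 1 ≤ H → H ≤ U → ∀ (S : Type) [Fintype S] [DecidableEq S]
    (F : S → Mat m → VN m N → ℂ) (lam : S → ℕ → ℂ) (W : S → ℝ), Fam T D H F lam W →
  ∀ (c : ℕ → ℂ) (M : S → ℕ) [∀ i, NeZero (M i)] (G : ∀ i, Mat m → VN m (M i) → ℂ)
    (lamG : S → ℕ → ℂ), (∀ n, ‖c n‖ ≤ 1) → Tw m T D B0 U c lam M G lamG →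
  ∀ L : S → ℂ → ℂ, (∀ i, IsL m 1 (lamG i) (L i)) → ∀ t0 : ℝ, H + |t0| ≤ U →
    ∑ i, W i * (((Wi t0 H).filter (fun k : ℤ => ∃ s : ℂ, 1 / 2 + d0 ≤ s.re ∧ |s.im - k| ≤ 1 ∧
      ¬ Good ((N : ℝ) * H ^ m) s (L i s))).card : ℝ) ≤
      C * (((N : ℝ) * B0 * U) ^ ε * Q3 m N B0 H U) * ((N : ℝ) * H ^ m) ^ (-a) := by
  obtain ⟨d, c1, B, Q2, z0, z, hd, hd2, hc1, hB, hQ2, hLF⟩ := hLoc
  obtain ⟨cb, CR, hcb, hCR, hR'⟩ := hBRB m e1 hm he1
  obtain ⟨Q3', hQ3', hlog⟩ := log_sq hcb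
  obtain ⟨Q0, hQ0, hQ02, hQ03⟩ : ∃ Q0 : ℝ, 1 ≤ Q0 ∧ Q2 ≤ Q0 ∧ Q3' ≤ Q0 :=
    ⟨max Q2 Q3', hQ2.trans (le_max_left _ _), le_max_left _ _, le_max_right _ _⟩
  obtain ⟨a, ha, hac, hab⟩ : ∃ a : ℝ, 0 < a ∧ a ≤ 2 * c1 ∧ a ≤ cb :=
    ⟨min (2 * c1) cb, lt_min (by linarith) hcb, min_le_left _ _, min_le_right _ _⟩
  refine ⟨a, ha, ?_⟩
  intro ε hε
  obtain ⟨CF, hCF, hWS⟩ := wsum hLSF m ε hm hε
  obtain ⟨CS, hCS, hS'⟩ := hBS m ε hm hε
  obtain ⟨CD, hCD, hD'⟩ := hBDT m B ε hm hB hε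
  obtain ⟨CL, hCL, hL'⟩ := hBLT m (d / 2) B ε hm (by positivity) (by linarith) hB hε
  have hQ00 : 0 < Q0 := by linarith
  refine ⟨3 * CS + 3 * CR + CD + CL + 2 * CF * Q0 ^ a, by positivity, ?_⟩
  intro N _ T D hS B0 H U hB0 hH hHU S _ _ F lam W hF c M _ G lamG hc hG L hL t0 ht0
  have hN1 : (1 : ℝ) ≤ N := by exact_mod_cast (NeZero.one_le (n := N))
  have hN0 : (0 : ℝ) < N := by linarith
  have hH0 : 0 < H := by linarith
  have hU0 : 0 < U := by linarith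
  have hB00 : 0 < B0 := by linarith
  have hnz : ∀ i, NZ (F i) := fun i => Pool.Agent.H69.ZN.nz_of_one hS (nU_of_orthn hF.orth i)
  have hl1 : ∀ i, lam i 1 = 1 := fun i => by
    obtain ⟨q, hq⟩ := hEUL m N T D hS (F i) (lam i) (hF.cus i).1.toHecA (hnz i)
    exact hq.one
  have hnG : ∀ i, NZ (G i) := fun i => Pool.Agent.H69.ZN.nz_of_one (hG.sys i).1 (hG.form i).2.2
  obtain ⟨Q, hQ⟩ : ∃ Q : ℝ, Q = (N : ℝ) * H ^ m := ⟨_, rfl⟩
  have hPm : 1 ≤ H ^ m := one_le_pow₀ hH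
  have hQ1 : 1 ≤ Q := by
    rw [hQ]
    calc (1 : ℝ) = 1 * 1 := (one_mul _).symm
      _ ≤ N * H ^ m := mul_le_mul hN1 hPm zero_le_one (by positivity)
  have hQp : 0 < Q := by linarith
  obtain ⟨Y, hY⟩ : ∃ Y : ℝ, Y = ((N : ℝ) * B0 * U) ^ ε * Q3 m N B0 H U := ⟨_, rfl⟩
  have hNP : ((N : ℝ) * H) ^ ε ≤ ((N : ℝ) * B0 * U) ^ ε := by
    refine Real.rpow_le_rpow (by positivity) ?_ hε.le
    calc (N : ℝ) * H ≤ N * U := mul_le_mul_of_nonneg_left hHU hN0.le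
      _ = N * 1 * U := by ring
      _ ≤ N * B0 * U := by gcongr
  have hQ3 : (N : ℝ) ^ m * H ^ (m ^ 2) ≤ Q3 m N B0 H U := by
    unfold Q3
    have h1 : 0 ≤ B0 ^ ((m : ℝ) / 2) * U ^ ((m : ℝ) ^ 2 / 2) := by positivity
    linarith
  have hY1 : ((N : ℝ) * H) ^ ε * ((N : ℝ) ^ m * H ^ (m ^ 2)) ≤ Y := by
    rw [hY]
    exact mul_le_mul hNP hQ3 (by positivity) (by positivity)
  have hY0 : 0 ≤ Y := le_trans (by positivity) hY1
  rw [← hQ, ← hY]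
  rcases le_or_gt Q0 Q with hQQ | hQQ
  · -- large conductor
    have hA1 : 1 ≤ Q ^ c1 := Real.one_le_rpow hQ1 hc1.le
    have hA2 : 1 ≤ Q ^ (2 * c1) := Real.one_le_rpow hQ1 (by linarith)
    have eS := hS' N T D hS H hH S F lam W hF (Q ^ (2 * c1)) hA2
    have eD := hD' N T D hS H hH S F lam W hF c lamG hc hG.tw t0 (z0 Q)
      (z Q) (Q ^ c1) hA1
    have eL := hL' N T D hS B0 H U hB0 hH hHU S F lam W hF c M G lamG hc hG L hL t0 ht0 (Q ^ c1) hA1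
    rw [← hQ] at eS eD
    rw [← hY] at eL
    have hp2 : (Q ^ c1) ^ 2 = Q ^ (2 * c1) := by
      rw [← Real.rpow_natCast, ← Real.rpow_mul hQp.le]
      congr 1
      push_cast
      ring
    rw [hp2] at eD eL
    have hQa : Q ^ (-(2 * c1)) ≤ Q ^ (-a) := Real.rpow_le_rpow_of_exponent_le hQ1 (by linarith)
    have hQb : Q ^ (-cb) ≤ Q ^ (-a) := Real.rpow_le_rpow_of_exponent_le hQ1 (by linarith)
    have hdiv : ∀ C : ℝ, 0 ≤ C → C * ((N : ℝ) * H) ^ ε * ((N : ℝ) ^ m * H ^ (m ^ 2)) / Q ^ (2 * c1) ≤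
        C * (Y * Q ^ (-a)) := by
      intro C hC
      rw [div_eq_mul_inv, ← Real.rpow_neg hQp.le, mul_assoc C, mul_assoc C]
      exact mul_le_mul_of_nonneg_left (mul_le_mul hY1 hQa (by positivity) hY0) hC
    have fS := eS.trans (hdiv CS hCS.le)
    have fD := eD.trans (hdiv CD hCD.le)
    have fL : _ ≤ CL * (Y * Q ^ (-a)) := eL.trans (by
      rw [div_eq_mul_inv, ← Real.rpow_neg hQp.le, mul_assoc]
      exact mul_le_mul_of_nonneg_left (mul_le_mul_of_nonneg_left hQa hY0) hCL.le)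
    have eR := hR' N T D hS H hH S F lam W hF
    rw [← hQ] at eR
    have fR : _ ≤ CR * (Y * Q ^ (-a)) := eR.trans (by
      refine mul_le_mul_of_nonneg_left ?_ hCR.le
      have h1 : Q ^ ((m : ℝ) - cb) = Q ^ (m : ℝ) * Q ^ (-cb) := by
        rw [← Real.rpow_add hQp]
        congr 1
      have h2 : Q ^ (m : ℝ) ≤ Y := by
        refine le_trans ?_ hY1
        have h3 : Q ^ (m : ℝ) = (N : ℝ) ^ m * H ^ (m ^ 2) := by
          rw [Real.rpow_natCast, hQ, mul_pow, ← pow_mul, sq]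
        rw [h3]
        refine le_mul_of_one_le_left (by positivity) (Real.one_le_rpow ?_ hε.le)
        calc (1 : ℝ) = 1 * 1 := (one_mul _).symm
          _ ≤ N * H := mul_le_mul hN1 hH zero_le_one (by positivity)
      rw [h1]
      exact mul_le_mul h2 hQb (by positivity) hY0)
    have key : ∀ i, W i * (((Wi t0 H).filter (fun k : ℤ => ∃ s : ℂ, 1 / 2 + d0 ≤ s.re ∧ |s.im - k| ≤ 1 ∧
          ¬ Good Q s (L i s))).card : ℝ) ≤
        3 * ((if Sq (lam i) Q (Q ^ (2 * c1)) then 0 else W i) * H) +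
        3 * ((if Rb m (lam i) (Q ^ cb) e1 then 0 else W i) * H) +
        W i * (((Wi t0 H).filter (fun k : ℤ => ∃ s : ℂ, 1 / 2 ≤ s.re ∧ s.re ≤ B ∧
          |s.im - k| ≤ B ∧ ¬ Dp m (lamG i) Q (z0 Q) (z Q)
            (Q ^ c1) s)).card : ℝ) +
        W i * (((Wi t0 H).filter (fun k : ℤ => ∃ s : ℂ, 1 / 2 + d / 2 ≤ s.re ∧
          s.re ≤ B ∧ |s.im - k| ≤ B ∧ Q ^ c1 < ‖L i s‖)).card : ℝ) := by
      intro i
      have hW := hF.nn i
      by_cases hSq : Sq (lam i) Q (Q ^ (2 * c1)) ∧ Rb m (lam i) (Q ^ cb) e1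
      · rw [if_pos hSq.1, if_pos hSq.2, zero_mul, mul_zero, zero_add, zero_add, ← mul_add]
        refine mul_le_mul_of_nonneg_left ?_ hW
        rw [← Nat.cast_add]
        refine Nat.cast_le.2 (le_trans (Finset.card_le_card ?_) (Finset.card_union_le _ _))
        intro k hk
        rw [Finset.mem_filter] at hk
        obtain ⟨hk1, s0, hs0, hs1, hs2⟩ := hk
        rw [Finset.mem_union, Finset.mem_filter, Finset.mem_filter]
        by_contra hcon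
        push Not at hcon
        obtain ⟨hcD, hcL⟩ := hcon
        have hcD := hcD hk1
        have hcL := hcL hk1
        have h1 := hLF (M i) T D (hG.sys i).1 (G i) (lamG i) (hG.form i).1 (hnG i) (L i) (hL i) Q k
          (hQ02.trans hQQ) (sq_tw hc (hG.tw i) hSq.1)
          (rb_tw hc (hG.tw i) (hlog Q (hQ03.trans hQQ)) hSq.2) hcD hcL s0 hs0 hs1
        exact hs2 h1
      · have h0 : W i * H ≤ (if Sq (lam i) Q (Q ^ (2 * c1)) then 0 else W i) * H +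
            (if Rb m (lam i) (Q ^ cb) e1 then 0 else W i) * H := by
          have hWH : 0 ≤ W i * H := mul_nonneg hW hH0.le
          by_cases h5 : Sq (lam i) Q (Q ^ (2 * c1))
          · have h6 : ¬ Rb m (lam i) (Q ^ cb) e1 := fun h => hSq ⟨h5, h⟩
            rw [if_pos h5, if_neg h6, zero_mul, zero_add]
          · rw [if_neg h5]
            have h7 : 0 ≤ (if Rb m (lam i) (Q ^ cb) e1 then 0 else W i) * H := by
              refine mul_nonneg ?_ hH0.le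
              split_ifs
              · exact le_rfl
              · exact hW
            linarith
        have h1 := card_Wi (t0 := t0) hH (fun k : ℤ => ∃ s : ℂ, 1 / 2 + d0 ≤ s.re ∧ |s.im - k| ≤ 1 ∧
          ¬ Good Q s (L i s))
        have h2 := mul_le_mul_of_nonneg_left h1 hW
        refine h2.trans ?_
        have h3 : 0 ≤ W i * (((Wi t0 H).filter (fun k : ℤ => ∃ s : ℂ, 1 / 2 ≤ s.re ∧
          s.re ≤ B ∧
          |s.im - k| ≤ B ∧ ¬ Dp m (lamG i) Q (z0 Q) (z Q)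
            (Q ^ c1) s)).card : ℝ) := by positivity
        have h4 : 0 ≤ W i * (((Wi t0 H).filter (fun k : ℤ => ∃ s : ℂ,
          1 / 2 + d / 2 ≤ s.re ∧
          s.re ≤ B ∧ |s.im - k| ≤ B ∧ Q ^ c1 < ‖L i s‖)).card : ℝ) := by positivity
        linarith
    refine (Finset.sum_le_sum fun i _ => key i).trans ?_
    rw [Finset.sum_add_distrib, Finset.sum_add_distrib, Finset.sum_add_distrib, ← Finset.mul_sum,
      ← Finset.mul_sum, ← Finset.sum_mul (f := fun i => if Rb m (lam i) (Q ^ cb) e1 then 0 else W i)]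
    have hz : 0 ≤ 2 * CF * Q0 ^ a * (Y * Q ^ (-a)) := by positivity
    calc _ ≤ 3 * (CS * (Y * Q ^ (-a))) + 3 * (CR * (Y * Q ^ (-a))) + CD * (Y * Q ^ (-a)) +
          CL * (Y * Q ^ (-a)) := by
          gcongr
      _ ≤ _ := by
          rw [mul_assoc _ Y, add_mul, add_mul, add_mul, add_mul]
          linarith
  · -- small conductor
    have h1 := hWS N T D hS H hH S F lam W hF hl1
    have h3 : ∑ i, W i * (((Wi t0 H).filter
        (fun k : ℤ => ∃ s : ℂ, 1 / 2 + d0 ≤ s.re ∧ |s.im - k| ≤ 1 ∧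
          ¬ Good Q s (L i s))).card : ℝ) ≤ ∑ i, W i * (3 * H) :=
      Finset.sum_le_sum fun i _ => mul_le_mul_of_nonneg_left (card_Wi hH _) (hF.nn i)
    rw [← Finset.sum_mul] at h3
    have h4 : 1 ≤ Q0 ^ a * Q ^ (-a) := by
      rw [Real.rpow_neg hQp.le, ← div_eq_mul_inv, one_le_div (by positivity)]
      exact Real.rpow_le_rpow hQp.le hQQ.le ha.le
    have h6 : 2 * H * ∑ i, W i ≤ CF * Y := by
      refine h1.trans ?_
      rw [mul_assoc]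
      exact mul_le_mul_of_nonneg_left hY1 hCF.le
    have h7 : (∑ i, W i) * (3 * H) ≤ 2 * (CF * Y) := by
      have h8 : 0 ≤ 2 * H * ∑ i, W i :=
        mul_nonneg (by linarith) (Finset.sum_nonneg fun i _ => hF.nn i)
      calc (∑ i, W i) * (3 * H) = 3 / 2 * (2 * H * ∑ i, W i) := by ring
        _ ≤ 2 * (2 * H * ∑ i, W i) := mul_le_mul_of_nonneg_right (by norm_num) h8
        _ ≤ _ := mul_le_mul_of_nonneg_left h6 (by norm_num)
    refine h3.trans (h7.trans ?_)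
    have h9 : 0 ≤ (3 * CS + 3 * CR + CD + CL) * (Y * Q ^ (-a)) := by positivity
    have h10 : 2 * (CF * Y) ≤ 2 * (CF * Y) * (Q0 ^ a * Q ^ (-a)) :=
      le_mul_of_one_le_right (by positivity) h4
    calc 2 * (CF * Y) ≤ (3 * CS + 3 * CR + CD + CL) * (Y * Q ^ (-a)) +
          2 * (CF * Y) * (Q0 ^ a * Q ^ (-a)) := by linarith
      _ = _ := by ring

end Pool.Agent.H87.ZR
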